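import Pool.Agent.ZRT.StmtsB

/-!
# ZRT, row LNB (helper21): norm estimate along lifts
-/

noncomputable section

open scoped ContDiff Topology RealInnerProductSpace
open Set

namespace Pool.Agent.ZRT.H21

open Pool.Agent.RF Pool.Agent.MVS Pool.Agent.ZRT

/-- a continuous lift of a differentiable curve through a local diffeomorphism is differentiable -/
theorem lift_deriv {E : E5 → E5} (hE : ContDiff ℝ ∞ E) {c y : ℝ → E5} {s : ℝ} {c' : E5}
    {I : Set ℝ} (hs : s ∈ I) (hy : ContinuousWithinAt y I s)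
    (hb : Function.Bijective (fderiv ℝ E (y s)))
    (heq : ∀ r ∈ I, E (y r) = c r) (hc : HasDerivWithinAt c c' I s) :
    ∃ y' : E5, HasDerivWithinAt y y' I s ∧ fderiv ℝ E (y s) y' = c' := by
  let e : E5 ≃L[ℝ] E5 := ContinuousLinearEquiv.ofBijective (fderiv ℝ E (y s))
    (LinearMap.ker_eq_bot.2 hb.1) (LinearMap.range_eq_top.2 hb.2)
  have he : (e : E5 →L[ℝ] E5) = fderiv ℝ E (y s) := by
    ext v
    rfl
  have hstr : HasStrictFDerivAt E (e : E5 →L[ℝ] E5) (y s) := by
    rw [he]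
    exact hE.contDiffAt.hasStrictFDerivAt (by simp)
  have hinv := hstr.to_localInverse
  have hleft := hstr.eventually_left_inverse
  have h1 : ∀ᶠ r in 𝓝[I] s, y r = hstr.localInverse E e (y s) (c r) := by
    have h0 : ∀ᶠ r in 𝓝[I] s, hstr.localInverse E e (y s) (E (y r)) = y r :=
      hy.eventually hleft
    filter_upwards [h0, self_mem_nhdsWithin] with r h1 h2
    rw [← heq r h2, h1]
  have h2 : HasDerivWithinAt (fun r => hstr.localInverse E e (y s) (c r)) (e.symm c') I s := by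
    have h3 : HasFDerivAt (hstr.localInverse E e (y s)) (e.symm : E5 →L[ℝ] E5) (c s) := by
      rw [← heq s hs]
      exact hinv.hasFDerivAt
    exact h3.comp_hasDerivWithinAt s hc
  refine ⟨e.symm c', h2.congr_of_eventuallyEq h1 (h1.self_of_nhdsWithin hs), ?_⟩
  rw [← he]
  exact e.apply_symm_apply c'

theorem lnb (xb1 : Xb1Statement) (xnm : XnmStatement) (xde : XdeStatement) : LnbStatement := by
  intro G ex hG hS hE m hm c y l hl hsp hy
  obtain ⟨c', hc'⟩ := hsp
  have hsm := (xb1 G ex hG hE m hm).1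
  have hd : ∀ s ∈ Icc (0 : ℝ) 1, ∃ y' : E5, HasDerivWithinAt y y' (Icc 0 1) s ∧
      |G m (y s) y'| ≤ nm G m (y s) * l := by
    intro s hs
    obtain ⟨y', h1, h2⟩ := lift_deriv hsm hs (hy.cont s hs)
      (xde G ex hG hS hE m hm (y s) (hy.lt s hs)).2 hy.eq (hc' s hs).1
    refine ⟨y', h1, ?_⟩
    have h3 := xnm G ex hG hE m hm (y s) y'
    have h4 : dE ex m (y s) y' = c' s := h2
    rw [h4, hy.eq s hs] at h3
    exact h3.trans (mul_le_mul_of_nonneg_left (hc' s hs).2 (Real.sqrt_nonneg _))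
  choose! y' hy1 hy2 using hd
  have hq : ∀ v : E5, 0 ≤ G m v v := by
    intro v
    rcases eq_or_ne v 0 with h | h
    · simp [h]
    · exact (hG.metric.pos m hm v h).le
  have key : ∀ ε : ℝ, 0 < ε → ∀ s ∈ Icc (0 : ℝ) 1, ∀ t ∈ Icc (0 : ℝ) 1,
      |Real.sqrt (G m (y t) (y t) + ε ^ 2) - Real.sqrt (G m (y s) (y s) + ε ^ 2)| ≤
        l * |t - s| := by
    intro ε hε s hs t ht
    have hpos : ∀ v : E5, 0 < G m v v + ε ^ 2 := fun v => by
      have := hq v
      positivity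
    have h1 : ∀ r ∈ Icc (0 : ℝ) 1,
        HasDerivWithinAt (fun r => Real.sqrt (G m (y r) (y r) + ε ^ 2))
          ((G m (y' r) (y r) + G m (y r) (y' r)) / (2 * Real.sqrt (G m (y r) (y r) + ε ^ 2)))
          (Icc 0 1) r := by
      intro r hr
      have h2 : HasDerivWithinAt (fun r => G m (y r)) (G m (y' r)) (Icc 0 1) r :=
        (G m).hasFDerivAt.comp_hasDerivWithinAt r (hy1 r hr)
      have h3 := (h2.clm_apply (hy1 r hr)).add_const (ε ^ 2)
      exact h3.sqrt (hpos (y r)).ne'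
    have h2 : ∀ r ∈ Icc (0 : ℝ) 1,
        ‖(G m (y' r) (y r) + G m (y r) (y' r)) / (2 * Real.sqrt (G m (y r) (y r) + ε ^ 2))‖ ≤ l := by
      intro r hr
      have h3 : 0 < Real.sqrt (G m (y r) (y r) + ε ^ 2) := Real.sqrt_pos.2 (hpos _)
      rw [hG.metric.symm m hm (y' r) (y r), ← two_mul, mul_div_mul_left _ _ (two_ne_zero' ℝ),
        Real.norm_eq_abs, abs_div, abs_of_pos h3, div_le_iff₀ h3]
      have h4 : nm G m (y r) ≤ Real.sqrt (G m (y r) (y r) + ε ^ 2) :=
        Real.sqrt_le_sqrt (by nlinarith [sq_nonneg ε])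
      calc |G m (y r) (y' r)| ≤ nm G m (y r) * l := hy2 r hr
        _ ≤ Real.sqrt (G m (y r) (y r) + ε ^ 2) * l := mul_le_mul_of_nonneg_right h4 hl
        _ = l * Real.sqrt (G m (y r) (y r) + ε ^ 2) := mul_comm _ _
    have h3 := (convex_Icc (0 : ℝ) 1).norm_image_sub_le_of_norm_hasDerivWithin_le h1 h2 hs ht
    simpa only [Real.norm_eq_abs] using h3
  intro s hs t ht
  refine le_of_forall_pos_le_add fun ε hε => ?_
  have h1 := (abs_le.1 (key ε hε s hs t ht)).2
  have h2 : nm G m (y t) ≤ Real.sqrt (G m (y t) (y t) + ε ^ 2) :=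
    Real.sqrt_le_sqrt (by nlinarith [sq_nonneg ε])
  have h3 : Real.sqrt (G m (y s) (y s) + ε ^ 2) ≤ nm G m (y s) + ε := by
    unfold nm
    rw [Real.sqrt_le_left (by positivity)]
    have h4 : Real.sqrt (G m (y s) (y s)) ^ 2 = G m (y s) (y s) := Real.sq_sqrt (hq _)
    nlinarith [Real.sqrt_nonneg (G m (y s) (y s))]
  linarith

end Pool.Agent.ZRT.H21
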